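import Pool.Agent.H8.AV3.Stmts

/-!
# AV3, INJ: the form determines the class of the point modulo `3 E(K)`
-/

set_option autoImplicit false

namespace Pool.Agent.H9.AV3

open Polynomial Matrix Pool.AVR Pool.AV3

theorem mulVec_smul_e1 {K : Type} [Field K] (g : Matrix (Fin 3) (Fin 3) K) (v : Fin 3 → K)
    (s : K) : g *ᵥ (s • v) = s • (g *ᵥ v) := Matrix.mulVec_smul g s v

theorem tev_e1 {K : Type} [Field K] (a b x y : K) : tev (FP a b x y) (e1 : Fin 3 → K) = 0 := by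
  simp [tev, FP, e1]

theorem inj_thm (hONT : ONTStmt) (hTRS : TRSStmt) (hFLT : FLTStmt) (hNFX : NFXStmt)
    (hUNQ : UNQStmt) : Pool.AV3.INJStmt := by
  intro K _ _ _ h2 a b c a' b' c' hsep x y h x' y' hC g hE
  have hdu : IsUnit g.det := hE.1
  have hd : g.det ≠ 0 := hdu.ne_zero
  have hgi : g⁻¹ * g = 1 := Matrix.nonsing_inv_mul g hdu
  have hgi' : g * g⁻¹ = 1 := Matrix.mul_nonsing_inv g hdu
  have hv0 : g *ᵥ (e1 : Fin 3 → K) ≠ 0 := by
    intro h0
    have h1 : g⁻¹ *ᵥ (g *ᵥ (e1 : Fin 3 → K)) = 0 := by rw [h0, Matrix.mulVec_zero]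
    rw [Matrix.mulVec_mulVec, hgi, Matrix.one_mulVec] at h1
    have h2 := congrFun h1 1
    simp [e1] at h2
  have hve : tev (FP a b x y) (g *ᵥ (e1 : Fin 3 → K)) = 0 := by
    rw [hE.tev, tev_e1, mul_zero]
  obtain ⟨T, s, hs, hT⟩ := (hONT K h2 a b c hsep x y h).2 _ hv0 hve
  by_cases hQ : (WeierstrassCurve.Affine.Point.some x y h : Pt a b c) = T + T + T
  · exfalso
    obtain ⟨w, κ, hw, hk⟩ := hFLT K h2 a b c hsep x y h T hQ
    have hgu : g *ᵥ (g⁻¹ *ᵥ w) = w := by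
      rw [Matrix.mulVec_mulVec, hgi', Matrix.one_mulVec]
    have h3 : ∀ s' t : K, tev (FP a' b' x' y') (s' • (e1 : Fin 3 → K) + t • (g⁻¹ *ᵥ w)) =
        (κ / g.det) * t ^ 3 := by
      intro s' t
      have h4 := hE.tev (s' • (e1 : Fin 3 → K) + t • (g⁻¹ *ᵥ w))
      rw [Matrix.mulVec_add, Matrix.mulVec_smul, Matrix.mulVec_smul, hgu, hT, smul_smul, hk] at h4
      field_simp
      linear_combination -h4
    obtain ⟨h5, h6⟩ := hNFX K a' b' x' y' _ _ h3
    have h7 : g⁻¹ *ᵥ w = ((g⁻¹ *ᵥ w) 1) • (e1 : Fin 3 → K) := by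
      funext i
      fin_cases i
      · simpa [e1] using h5
      · simp [e1]
      · simpa [e1] using h6
    apply hw (((g⁻¹ *ᵥ w) 1) * s)
    calc w = g *ᵥ (g⁻¹ *ᵥ w) := hgu.symm
      _ = g *ᵥ (((g⁻¹ *ᵥ w) 1) • (e1 : Fin 3 → K)) := by rw [← h7]
      _ = _ := by rw [Matrix.mulVec_smul, hT, smul_smul]
  · obtain ⟨x'', y'', h'', g₁, hP, hE1, s₁, hs₁, hg₁⟩ := hTRS K h2 a b c hsep x y h T hQ
    have hdu1 : IsUnit g₁.det := hE1.1
    have hgi1 : g₁⁻¹ * g₁ = 1 := Matrix.nonsing_inv_mul g₁ hdu1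
    have hE2 : Eqv (g₁⁻¹ * g) (FP a b x'' y'') (FP a' b' x' y') := hE1.symm.trans hE
    have hke : (g₁⁻¹ * g) *ᵥ (e1 : Fin 3 → K) = (s / s₁) • (e1 : Fin 3 → K) := by
      have h4 : phi x y T = s₁⁻¹ • (g₁ *ᵥ (e1 : Fin 3 → K)) := by
        rw [hg₁, smul_smul, inv_mul_cancel₀ hs₁, one_smul]
      rw [← Matrix.mulVec_mulVec, hT, h4, smul_smul, Matrix.mulVec_smul, Matrix.mulVec_mulVec,
        hgi1, Matrix.one_mulVec, div_eq_mul_inv]
    obtain ⟨r, η, hr, hk, hx, hy, ha, hb⟩ := hUNQ K h2 a b x'' y'' a' b' x' y' _ _ hE2 hke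
    have hx2 : x' + η = x'' := by rw [hx]; ring
    have hns : (E a b c).toAffine.Nonsingular (x' + η) y' := by
      rw [hx2, hy]; exact h''
    have heq : y'' ^ 2 = x'' ^ 3 + a * x'' ^ 2 + b * x'' + c := by
      have h5 := (WeierstrassCurve.Affine.equation_iff _ _).1 h''.1
      simp only [E] at h5
      linear_combination h5
    refine ⟨T, η, hns, ha, hb, ?_, ?_, ⟨s, hs, hT⟩, ?_⟩
    · unfold OnC at hC
      rw [hx, hy, ha, hb] at hC
      linear_combination heq - hC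
    · rw [← hP]
      simp only [WeierstrassCurve.Affine.Point.some.injEq]
      exact ⟨hx2.symm, hy.symm⟩
    · intro hT0
      have h6 : phi x y T = (e1 : Fin 3 → K) := by
        rw [hT0]
        rfl
      rw [h6] at hT
      obtain ⟨r', η', hr', hg', hx', hy', ha', hb'⟩ := hUNQ K h2 a b x y a' b' x' y' s g hE hT
      have h7 : x'' = x := by
        rw [hT0, add_zero, add_zero, sub_zero] at hP
        simp only [WeierstrassCurve.Affine.Point.some.injEq] at hP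
        exact hP.1
      have h8 : η' = η := by
        linear_combination hx' - hx2 - h7
      exact ⟨r', hr', by rw [hg', h8]⟩

end Pool.Agent.H9.AV3
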